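import Pool.Agent.Helper90.MZ.StmtsC

set_option autoImplicit false

namespace Pool.Agent.Helper90.MZ

open Pool.Agent.Helper90.TS

variable {V G : Type} [Group G] [MulAction G V]

/-- moving back a supported class -/
theorem nfv_sup_back (hINVA : ST_INVA) (X : Ctx V G) {B : Set V} {q : Ty V} {g : G}
    (hg : g ∈ Fx G B) (h : Sup X B (mv g q)) : Sup X B q := by
  have h1 := (hINVA V G X g⁻¹).2.2.2.2.2.1 B (mv g q) h
  rw [(hINVA V G X g).1 q, tr_fx ((Fx G B).inv_mem hg)] at h1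
  exact h1

/-- the conjugates are independent over `b ∪ z` -/
theorem nfv_ind (X : Ctx V G) {b M0 Z Q1 Q2 : Set V} {g : G}
    (hb : b.Countable) (hM0 : M0.Countable) (hZ : Z.Countable) (hQ1 : Q1.Countable)
    (hQ2 : Q2.Countable) (hbM : b ⊆ M0) (h : SI X b M0 (Z ∪ Q1)) (hg : g ∈ Fx G (M0 ∪ Z))
    (h2 : SI X (M0 ∪ Z) (tr g Q1) Q2) : SI X (b ∪ Z) (tr g Q1) Q2 := by
  have h3 : SI X b (Z ∪ Q1) M0 := si_symm hb hM0 (hZ.union hQ1) h
  have h4 : SI X (b ∪ Z) Q1 M0 := ((si_unionl hb hZ hM0 hQ1).1 h3).2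
  have hg1 : g ∈ Fx G (b ∪ Z ∪ M0) := by
    refine fx_anti ?_ hg
    rintro x ((hx | hx) | hx)
    · exact Or.inl (hbM hx)
    · exact Or.inr hx
    · exact Or.inl hx
  have h5 : SI X (b ∪ Z) (tr g Q1) M0 :=
    (si_fx_left (hb.union hZ) hQ1 hM0 hg1).2 h4
  have e : b ∪ Z ∪ M0 = M0 ∪ Z := by
    ext x
    constructor
    · rintro ((hx | hx) | hx)
      · exact Or.inl (hbM hx)
      · exact Or.inr hx
      · exact Or.inl hx
    · rintro (hx | hx)
      · exact Or.inr hx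
      · exact Or.inl (Or.inr hx)
  have h6 : SI X (b ∪ Z) (tr g Q1) (M0 ∪ Q2) :=
    si_trans (hb.union hZ) (tr_countable g hQ1) hM0 hQ2 h5 (by rw [e]; exact h2)
  exact si_right (hb.union hZ) (tr_countable g hQ1) (hM0.union hQ2) Set.subset_union_right h6

theorem st_NFV (hFDOM : ST_FDOM) (hFIN : ST_FIN) (hWT : ST_WT) (hPRB : ST_PRB) (hSUPO : ST_SUPO)
    (hSUPU : ST_SUPU) (_hENIU : ST_ENIU) (hINVA : ST_INVA) (hINVB : ST_INVB) (hIND : ST_IND)
    (_hNOEQ : ST_NOEQ) (_hATMB : ST_ATMB) : ST_NFV := by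
  intro V G _ _ X b M0 Mv q z hFew hbf hM0 hbM hENI hSI hAtm hSp hnSp
  by_contra hnS
  have hqSR : SR X q := hENI.1
  have hqf : q.A.Finite := hENI.2.1
  have hzc : (Set.range z).Countable := Set.countable_range z
  have hbc : b.Countable := hbf.countable
  obtain ⟨r, hrSR, hrA, hrf, hrq, _⟩ := (hSUPU V G X).2.2.2.2.2.1 Mv q hqSR hSp
  -- an enumeration of the base of `r`
  obtain ⟨n, f, hf⟩ : ∃ (n : ℕ) (f : Fin n → V), Set.range f = r.A := by
    have := hrf.fintype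
    refine ⟨Fintype.card r.A, fun i => ((Fintype.equivFin r.A).symm i : V), ?_⟩
    ext x
    constructor
    · rintro ⟨i, rfl⟩
      exact ((Fintype.equivFin r.A).symm i).2
    · intro hx
      exact ⟨Fintype.equivFin r.A ⟨x, hx⟩, by simp⟩
  have hIsl : Isl X (M0 ∪ Set.range z) f := hAtm.2.2 n f (by rw [hf]; exact hrA)
  -- conjugates of `q`
  obtain ⟨σ, hσ, hInd, _⟩ := (hIND V G X (M0 ∪ Set.range z) (hM0.1.union hzc)).2.2.2.2.2.1
    (fun _ => q.A) ∅ (fun _ => hqf.countable) Set.countable_empty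
  have hσb : ∀ i, σ i ∈ Fx G (b ∪ Set.range z) := fun i =>
    fx_anti (Set.union_subset_union_left _ hbM) (hσ i)
  have hSRi : ∀ i, SR X (mv (σ i) q) := fun i => (hINVA V G X (σ i)).2.2.1 q hqSR
  have hno : ∀ i j, i ≠ j → ¬ NO X (mv (σ i) q) (mv (σ j) q) := by
    intro i j hij hN
    have h1 : SI X (M0 ∪ Set.range z) (tr (σ i) q.A) (tr (σ j) q.A) := by
      have h2 := hInd {i} {j} (Set.disjoint_singleton.2 hij)
      simpa using h2
    have h2 : SI X (b ∪ Set.range z) (tr (σ i) q.A) (tr (σ j) q.A) :=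
      nfv_ind X hbc hM0.1 hzc hqf.countable (tr_countable _ hqf.countable) hbM hSI (hσ i) h1
    have h3 := (hSUPO V G X (b ∪ Set.range z) (hbc.union hzc)).1 (mv (σ i) q) (mv (σ j) q)
      (hSRi i) (hSRi j) hN h2
    exact hnS (nfv_sup_back hINVA X (hσb i) h3)
  obtain ⟨b1, hb1M, hb1f, hDom⟩ := hFDOM V G X M0 (Set.range z) hM0 (Set.finite_range z)
    (Fin n) f hIsl
  have hDom1 : Dom X b1 (Set.range z) f := (hDom b1 le_rfl hb1M).1
  have hnb : ∀ i, ¬ Sup X b1 (mv (σ i) q) := by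
    intro i h
    have h1 : Sup X b1 q := nfv_sup_back hINVA X
      (fx_anti (hb1M.trans Set.subset_union_left) (hσ i)) h
    exact hnSp (h1 M0 hM0 hb1M)
  have hNB : ∀ i, NB X b1 (Set.range z) (mv (σ i) q) := by
    intro i
    have hd := (hINVB V G X (σ i)).2.2.1 b1 (Set.range z) (Fin n) f hb1f.countable hzc hDom1
    rw [tr_fx (fx_anti (hb1M.trans Set.subset_union_left) (hσ i)),
      tr_fx (fx_anti Set.subset_union_right (hσ i))] at hd
    refine (hPRB V G X b1 hb1f.countable).2.2.2.2.1 (mv (σ i) q) (mv (σ i) r) (Set.range z)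
      (hSRi i) ((hINVA V G X (σ i)).2.2.1 r hrSR) (tr_countable _ hrf.countable) hzc (hnb i)
      ((hINVA V G X (σ i)).2.2.2.1 r q hrq) ?_
    intro Y hY hYz
    obtain ⟨D, _, _, hD⟩ := hd
    have h1 := (hD Y hY hYz).1
    have e : (mv (σ i) r).A = Set.range (σ i • f) := by
      change tr (σ i) r.A = _
      rw [← hf, tr_range]
    rw [e]
    exact si_right hb1f.countable hY (hzc.union (Set.countable_range _)) Set.subset_union_right h1
  obtain ⟨K, hK⟩ := hFIN V G X b1 hFew hb1f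
  obtain ⟨w, hw⟩ := hWT V G X b1 (Set.range z) hb1f.countable (Set.finite_range z)
  have h := hK (Set.range z) w hzc hw (K * w + 1) (fun i => mv (σ i) q)
    ⟨fun i => ⟨(hINVA V G X (σ i)).2.2.2.2.2.2.2.2.1 q hENI, hnb i⟩, fun i j hij =>
      hno i j (fun h => hij (Fin.ext h))⟩ (fun i => hNB i)
  omega

end Pool.Agent.Helper90.MZ
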