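import Pool.Agent.Helper90.MZ.StmtsZ

set_option autoImplicit false

namespace Pool.Agent.Helper90.MZ

open Pool.Agent.Helper90.TS

variable {V G : Type} [Group G] [MulAction G V]

theorem zch_ini_finite (d : ℕ → V) (n : ℕ) : (ini d n).Finite := by
  refine ((Set.finite_Iio n).image d).subset ?_
  rintro x ⟨i, hi, rfl⟩
  exact ⟨i, hi, rfl⟩

theorem zch_ini_subset (d : ℕ → V) (n : ℕ) : ini d n ⊆ Set.range d := by
  rintro x ⟨i, _, rfl⟩
  exact ⟨i, rfl⟩

/-- adding algebraic elements to the base of a realization -/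
theorem zch_acl (X : Ctx V G) (p : Ty V) (B E : Set V) (y : Fin 1 → V) (hp : p.A.Countable)
    (hB : B.Countable) (hE : E ⊆ acl G B) (h : Rl X p B y) : Rl X p (B ∪ E) y := by
  have hyc : (Set.range y).Countable := Set.countable_range y
  have hu : (p.A ∪ B).Countable := hp.union hB
  have hacl := a_aclb V G X (p.A ∪ B) hu
  have hE2 : E ⊆ acl G (p.A ∪ B) :=
    hE.trans ((a_aclb V G X B hB).2.2.1 (p.A ∪ B) Set.subset_union_right)
  have hB2 : B ⊆ acl G (p.A ∪ B) := Set.subset_union_right.trans hacl.1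
  refine ⟨h.1, ?_⟩
  have h1 : SI X p.A B (Set.range y) := si_symm hp hyc hB h.2
  have h2 : SI X p.A (acl G (p.A ∪ B)) (Set.range y) :=
    (a_acls V G X p.A B (Set.range y) hp hB hyc).2 h1
  have h3 : SI X p.A (B ∪ E) (Set.range y) := si_left (Set.union_subset hB2 hE2) h2
  exact si_symm hp (hB.union (hacl.2.1.mono hE2)) hyc h3

theorem st_ZCH (hZCA : ST_ZCA) (hZCB : ST_ZCB) (hZCD : ST_ZCD) (hZL : ST_ZL) (hRLB : ST_RLB)
    (hMDLB : ST_MDLB) : ST_ZCH := by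
  intro V G _ _ X Q d hFew hQ hdQ hd
  obtain ⟨a1, s, t, ha1f, ha1Q, ht1, ht2, ht3⟩ := hZCA V G X Q hFew hQ
  have h2 : ∀ l : Fin s, ∃ a2 : Set V, a2.Finite ∧ a1 ⊆ a2 ∧ a2 ⊆ Q ∧ ∀ a : Set V, a.Finite →
      a2 ⊆ a → a ⊆ Q → ∀ y, Rl X (t l) a y → ∃ c : Set V, Z3 X a y c := fun l =>
    hZCB V G X Q a1 (t l) hFew hQ ha1f ha1Q (ht1 l).1 (ht1 l).2.1
  choose b2 hb2f hb21 hb2Q hb2 using h2
  obtain ⟨a2, ha2⟩ : ∃ a2 : Set V, a2 = a1 ∪ ⋃ l, b2 l := ⟨_, rfl⟩
  have ha2f : a2.Finite := by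
    rw [ha2]
    exact ha1f.union (Set.finite_iUnion hb2f)
  have ha21 : a1 ⊆ a2 := by
    rw [ha2]
    exact Set.subset_union_left
  have ha2b : ∀ l, b2 l ⊆ a2 := by
    intro l
    rw [ha2]
    exact (Set.subset_iUnion b2 l).trans Set.subset_union_right
  have ha2Q : a2 ⊆ Q := by
    rw [ha2]
    exact Set.union_subset ha1Q (Set.iUnion_subset hb2Q)
  have h3 : ∀ l : Fin s, ∃ n, ∀ m ≥ n, ∀ y, Rl X (t l) (a2 ∪ ini d m) y →
      Rl X (t l) (a2 ∪ Set.range d) y := fun l =>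
    hZL V G X d hd a2 (t l) ha2f (ht1 l).1 ((ht1 l).2.1.trans ha21)
  choose n hn using h3
  obtain ⟨N, hN⟩ : ∃ N, ∀ l, n l ≤ N :=
    ⟨Finset.univ.sup n, fun l => Finset.le_sup (Finset.mem_univ l)⟩
  have ha3f : (a2 ∪ ini d N).Finite := ha2f.union (zch_ini_finite d N)
  have ha3Q : a2 ∪ ini d N ⊆ Q := Set.union_subset ha2Q ((zch_ini_subset d N).trans hdQ)
  obtain ⟨e, he, hef, m, q, hq1, hq2, hq3⟩ := hZCD V G X (a2 ∪ ini d N) hFew ha3f
  have heQ : e ⊆ Q := by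
    have h4 := (a_aclb V G X (a2 ∪ ini d N) ha3f.countable).2.2.1 Q ha3Q
    rw [(hMDLB V G X).2.2.1 Q hQ] at h4
    exact he.trans h4
  have haf : (a2 ∪ ini d N ∪ e).Finite := ha3f.union hef
  have haQ : a2 ∪ ini d N ∪ e ⊆ Q := Set.union_subset ha3Q heQ
  have ha2a : a2 ⊆ a2 ∪ ini d N ∪ e := Set.subset_union_left.trans Set.subset_union_left
  refine ⟨a2 ∪ ini d N ∪ e, s, t, ⟨hQ, haf, haQ, ?_, ht2, ht3, ?_, ?_, m, q, hq1, hq2, hq3⟩⟩
  · exact fun l => ⟨(ht1 l).1, (ht1 l).2.1.trans (ha21.trans ha2a), (ht1 l).2.2⟩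
  · intro l y hy
    have h5 : Rl X (t l) (a2 ∪ ini d N) y :=
      (hRLB V G X (t l) (ht1 l).1 (a2 ∪ ini d N ∪ e) haf.countable).2.2.1 y hy (a2 ∪ ini d N)
        (Set.subset_union_left.trans Set.subset_union_right)
    have h6 := hn l N (hN l) y h5
    have hdc : (Set.range d).Countable := Set.countable_range d
    have h7 := zch_acl X (t l) (a2 ∪ Set.range d) e y (ht1 l).1.cnt
      (ha2f.countable.union hdc)
      (he.trans ((a_aclb V G X (a2 ∪ ini d N) ha3f.countable).2.2.1 _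
        (Set.union_subset_union_right _ (zch_ini_subset d N)))) h6
    refine (hRLB V G X (t l) (ht1 l).1 (a2 ∪ Set.range d ∪ e)
      ((ha2f.countable.union hdc).union hef.countable)).2.2.1 y h7 _ ?_
    refine Set.Subset.trans ?_ Set.subset_union_right
    rintro x (((hx | hx) | hx) | hx)
    · exact Or.inl (Or.inl hx)
    · exact Or.inl (Or.inr (zch_ini_subset d N hx))
    · exact Or.inr hx
    · exact Or.inl (Or.inr hx)
  · intro l y hy
    exact hb2 l _ haf ((ha2b l).trans ha2a) haQ y hy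

end Pool.Agent.Helper90.MZ
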